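import Pool.Agent.Lib.DI.FH.Spec

/-!
# Theorem DI, part FH: the output of F4, F6 and H5 together
-/

set_option autoImplicit false

open scoped Pointwise

noncomputable section

namespace Pool.Agent.DI.FH

open Pool.Agent.MuZ Pool.Agent.DI

/-- a series with coefficients in `L` -/
private def lift {L : IntermediateField ℚ Om} (u : PowerSeries Om)
    (h : ∀ n, PowerSeries.coeff n u ∈ L) : PowerSeries L :=
  PowerSeries.mk fun n => ⟨PowerSeries.coeff n u, h n⟩

private theorem map_lift {L : IntermediateField ℚ Om} (u : PowerSeries Om)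
    (h : ∀ n, PowerSeries.coeff n u ∈ L) : PowerSeries.map (algebraMap L Om) (lift u h) = u := by
  ext n
  rw [PowerSeries.coeff_map, lift, PowerSeries.coeff_mk]
  rfl

private theorem odd_UP {P : Ideal ZZ} [hP : P.IsPrime] (h2 : MP P 2) {N0 : ℤ} (h : Odd N0) :
    UP P (N0 : Om) := by
  refine ⟨VP.int N0, fun h1 => ?_⟩
  obtain ⟨k, hk⟩ := h
  have h3 : MP P ((2 : Om) * k) := h2.mul_right (VP.int k)
  have h4 := h1.sub h3
  have e : (N0 : Om) - 2 * k = 1 := by rw [hk]; push_cast; ring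
  rw [e] at h4
  exact MP.one_not h4

theorem tFH (hVS : S_VS) (hNor : S_Nor) (hHalf : S_HalfO) (hFrK : S_FrK) (hUnr : S_Unr)
    (hGal : S_GalF) (hFrCo : S_FrCo) (hMain : S_Main) (hUMain : S_UMain)
    (hF6 : DI.F4.S_F6) : S_FH := by
  intro hE1 hE3 hE8 hE9 f P σ N0 βA βB hf h7 hP hσ hN0 hβA hβB hvA hvB huA huB
    TA WA TB WB ψ Q1 Q2 hTA hTB hψ hrel hQ2 hQ k hk hQ1k hQ2k hc1 hc2
  have hPr : P.IsPrime := hP.1
  obtain ⟨V, hV, htwo, hw0, hVw, hwinv, h2⟩ := hVS P hP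
  obtain ⟨φ, hφ, hFro⟩ := hFrK P hP
  obtain ⟨hφL, hfix, -⟩ := hGal hE1 hE3 hE9 hNor f hf h7 P hP φ hφ hFro σ hσ
  have hcong := hFrCo hVS (hUnr hE8 hE9) f hf h7 P hP φ hφ hFro hφL
  have hNor' := hNor
  obtain ⟨-, -, htoO, -⟩ := hNor'
  have hwL : wO ∈ Lf f := by
    intro τ hτ a _ _
    rw [← htoO]
    exact hfix τ hτ pO
  have hφw : φ wO = wO := by
    rw [← htoO]
    exact hfix φ hφ pO
  -- the restriction of the Frobenius element
  let Fr : Lf f →+* Lf f :=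
    { toFun := fun x => ⟨φ (x : Om), hφL _ x.2⟩
      map_one' := Subtype.ext (map_one φ)
      map_mul' := fun x y => Subtype.ext (map_mul φ (x : Om) (y : Om))
      map_zero' := Subtype.ext (map_zero φ)
      map_add' := fun x y => Subtype.ext (map_add φ (x : Om) (y : Om)) }
  let pi : Lf f := ⟨wO, hwL⟩
  let j : Lf f →+* Om := algebraMap (Lf f) Om
  have hj : ∀ x : Lf f, j x = (x : Om) := fun _ => rfl
  have hjpi : j pi = wO := rfl
  have hpitwo : pi * (1 - pi) = 2 := by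
    apply Subtype.ext
    exact htwo
  have hFrpi : Fr pi = pi := Subtype.ext hφw
  have hFrc : ∀ a : Lf f, j a ∈ V → ∃ b : Lf f, j b ∈ V ∧ Fr a = a ^ 2 + pi * b := by
    intro a ha
    obtain ⟨b, hb, hbV, hab⟩ := hcong (a : Om) a.2 ((hV _).1 ha)
    exact ⟨⟨b, hb⟩, (hV _).2 hbV, Subtype.ext hab⟩
  have hjFr : ∀ g : PowerSeries (Lf f), PowerSeries.map j (PowerSeries.map Fr g) =
      PowerSeries.map (φ : Om →+* Om) (PowerSeries.map j g) := by
    intro g
    ext n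
    rw [PowerSeries.coeff_map, PowerSeries.coeff_map, PowerSeries.coeff_map,
      PowerSeries.coeff_map]
    rfl
  -- the data for one series
  have key : ∀ β : Om, β ∈ Lf f → (∀ τ ∈ GK, VP P (τ β)) → ¬ MP P β →
      ∃ u : PowerSeries (Lf f), PowerSeries.map j u = uS f σ N0 β ∧
        PowerSeries.constantCoeff u = 0 ∧
        (∀ n, j (PowerSeries.coeff n (u - PowerSeries.C pi⁻¹ *
          DI.F4.cs (PowerSeries.map Fr u) (PowerSeries.X ^ 2))) ∈ V) ∧
        PowerSeries.coeff 1 u ≠ 0 ∧ j (PowerSeries.coeff 1 u) ∈ V ∧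
        (j (PowerSeries.coeff 1 u))⁻¹ ∈ V := by
    intro β hβ hvβ huβ
    obtain ⟨h0, h1, hL, hm⟩ := hUMain hE1 hE3 hE8 hE9 hNor hHalf hGal hMain f hf h7 P hP φ hφ
      hFro σ hσ N0 β hβ hvβ
    have hmap : PowerSeries.map j (lift (uS f σ N0 β) hL) = uS f σ N0 β := map_lift _ hL
    have hUβ : UP P β := by
      refine ⟨?_, huβ⟩
      have := hvβ 1 (one_mem _)
      simpa using this
    have hU : UP P ((N0 : Om) * β) := (odd_UP h2 hN0).mul hUβ
    have hc1' : j (PowerSeries.coeff 1 (lift (uS f σ N0 β) hL)) = N0 * β := by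
      rw [← PowerSeries.coeff_map, hmap, h1]
    refine ⟨lift (uS f σ N0 β) hL, hmap, ?_, ?_, ?_, ?_, ?_⟩
    · have h3 : j (PowerSeries.constantCoeff (lift (uS f σ N0 β) hL)) = 0 := by
        rw [← DI.F4.cc_map, hmap, h0]
      exact (map_eq_zero j).1 h3
    · intro n
      have h3 : PowerSeries.map j (lift (uS f σ N0 β) hL - PowerSeries.C pi⁻¹ *
          DI.F4.cs (PowerSeries.map Fr (lift (uS f σ N0 β) hL)) (PowerSeries.X ^ 2)) =
          uS f σ N0 β - PowerSeries.C wO⁻¹ *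
          DI.F4.cs (PowerSeries.map (φ : Om →+* Om) (uS f σ N0 β)) (PowerSeries.X ^ 2) := by
        rw [map_sub, map_mul, DI.F4.map_cs j (by simp), hjFr, hmap, PowerSeries.map_C, map_inv₀,
          hjpi, map_pow, PowerSeries.map_X]
      rw [← PowerSeries.coeff_map, h3]
      exact (hV _).2 (hm n)
    · intro h3
      rw [h3, map_zero] at hc1'
      exact hU.ne_zero hc1'.symm
    · rw [hc1']
      exact (hV _).2 hU.1
    · rw [hc1']
      exact (hV _).2 hU.inv.1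
  obtain ⟨uA, hmA, hA0, hA1, hA2, hA3, hA4⟩ := key βA hβA hvA huA
  obtain ⟨uB, hmB, hB0, hB1, hB2, hB3, hB4⟩ := key βB hβB hvB huB
  obtain ⟨c1, hc10, hc1'⟩ := hc1
  obtain ⟨c2, hc20, hc2'⟩ := hc2
  have halg : ∀ c : Om, FiniteDimensional ℚ (IntermediateField.adjoin ℚ {c} :
      IntermediateField ℚ Om) := fun c =>
    IntermediateField.adjoin.finiteDimensional (Algebra.IsAlgebraic.isAlgebraic c).isIntegral
  have := hk
  have := halg c1
  have := halg c2
  let k' : IntermediateField ℚ Om := k ⊔ (IntermediateField.adjoin ℚ {c1} ⊔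
    IntermediateField.adjoin ℚ {c2})
  have : FiniteDimensional ℚ k' := IntermediateField.finiteDimensional_sup _ _
  have hkk : k ≤ k' := le_sup_left
  have hc1k : c1 ∈ k' := (le_sup_left.trans (le_sup_right : _ ≤ k'))
    (IntermediateField.mem_adjoin_simple_self ℚ c1)
  have hc2k : c2 ∈ k' := (le_sup_right.trans (le_sup_right : _ ≤ k'))
    (IntermediateField.mem_adjoin_simple_self ℚ c2)
  have hwb : wbO = 1 - wO := rfl
  have hcc : ∀ g : PowerSeries Om, PowerSeries.coeff 0 g = 0 → PowerSeries.constantCoeff g = 0 :=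
    fun g hg => by rw [← PowerSeries.coeff_zero_eq_constantCoeff_apply]; exact hg
  refine hF6 Om V k' (Lf f) j pi Fr hpitwo ((hV _).2 hVw) hwinv hFrpi hFrc uA uB hA0 hB0 hA1 hB1
    hA2 hA3 hA4 hB2 hB3 hB4 TA WA TB WB ψ Q1 Q2 (hcc _ hTA.T0) (hcc _ hTB.T0) (hcc _ hTA.W0)
    (hcc _ hTB.W0) ?_ ?_ hTA.curve hTB.curve ?_ ?_ hψ ?_ hQ2 hQ (fun n => hkk (hQ1k n))
    (fun n => hkk (hQ2k n)) ⟨c1, hc1k, hc10, fun n => (hV _).2 (hc1' n)⟩
    ⟨c2, hc2k, hc20, fun n => (hV _).2 (hc2' n)⟩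
  · rw [hTA.T1, ← hmA, PowerSeries.coeff_map]
  · rw [hTB.T1, ← hmB, PowerSeries.coeff_map]
  · rw [hmA]; exact hTA.diff
  · rw [hmB]; exact hTB.diff
  · have e1 : j (pi / (1 - pi) ^ 2) = wO / wbO ^ 2 := by
      rw [map_div₀, map_pow, map_sub, map_one, hjpi, hwb]
    have e2 : j (pi ^ 2) = wO ^ 2 := by rw [map_pow, hjpi]
    have e3 : j (1 - pi) = wbO := by rw [map_sub, map_one, hjpi, hwb]
    rw [e1, e2, e3, ← mul_assoc, hrel, mul_assoc]

end Pool.Agent.DI.FH
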