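import Pool.Agent.Lib.DI.FH.Spec

/-!
# Theorem DI, part FH: the Frobenius congruence on `L` (helper11)
-/

set_option autoImplicit false

open scoped Pointwise

noncomputable section

namespace Pool.Agent.DI.FH

open Pool.Agent.MuZ Pool.Agent.DI

private theorem FrCo_wO (f : ℕ) : wO ∈ Lf f := by
  intro τ hτ _ _ _
  have h1 : wO ∈ KQ := IntermediateField.mem_adjoin_simple_self ℚ wO
  exact (IntermediateField.mem_fixingSubgroup_iff KQ τ).1 hτ wO h1

theorem tFrCo : S_FrCo := by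
  intro hVS hUnr f hf h7 P hP φ _ hφ hL x hx hxV
  have hPp : P.IsPrime := hP.1
  obtain ⟨_, _, hw2, hw0, hwV, _, hM2⟩ := hVS P hP
  have hc : φ x - x ^ 2 ∈ Lf f := (Lf f).sub_mem (hL x hx) (pow_mem hx 2)
  have hm : MP P (φ x - x ^ 2) := VP.frob hφ hxV
  have hh : VP P ((φ x - x ^ 2) / 2) := hUnr f hf h7 P ⟨hP.1, hP.2.1⟩ hM2 _ hc hm
  have e1 : (φ x - x ^ 2) / wO = (1 - wO) * ((φ x - x ^ 2) / 2) := by
    rw [div_eq_iff hw0]
    linear_combination (-(φ x - x ^ 2) / 2) * hw2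
  refine ⟨(φ x - x ^ 2) / wO, (Lf f).div_mem hc (FrCo_wO f), ?_, ?_⟩
  · rw [e1]
    exact (VP.one.sub hwV).mul hh
  · rw [mul_div_cancel₀ _ hw0]
    ring

end Pool.Agent.DI.FH
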