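import Pool.Agent.Lib.DI.FH.Spec

/-!
# Theorem DI, part FH: FrK (a Frobenius element at `P` in `Gal(Om/K)`)
-/

set_option autoImplicit false

open scoped Pointwise

noncomputable section

namespace Pool.Agent.DI.FH

open Pool.Agent.MuZ Pool.Agent.DI

private lemma frk_alg : Algebra.IsAlgebraic ℚ Om := by
  have h : @Algebra.IsAlgebraic ℚ Om _ _ (AlgebraicClosure.instAlgebra ℚ) :=
    AlgebraicClosure.isAlgebraic ℚ
  have e : (AlgebraicClosure.instAlgebra ℚ : Algebra ℚ Om) = DivisionRing.toRatAlgebra :=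
    Subsingleton.elim _ _
  rw [e] at h
  exact h

private lemma frk_gal : IsGalois ℚ Om := by
  have : IsAlgClosure ℚ Om := ⟨inferInstance, frk_alg⟩
  infer_instance

private lemma frk_inv : Algebra.IsInvariant ℤ ZZ Gal(Om/ℚ) := by
  have := frk_gal
  refine ⟨fun b hb => ?_⟩
  have h1 : (b : Om) ∈ Set.range (algebraMap ℚ Om) := by
    rw [InfiniteGalois.mem_range_algebraMap_iff_fixed]
    intro f
    have h := congrArg (Subtype.val) (hb f)
    exact h
  obtain ⟨q, hq⟩ := h1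
  have h2 : IsIntegral ℤ q := by
    have h3 : IsIntegral ℤ (algebraMap ℚ Om q) := by
      rw [hq]
      exact b.2
    exact (isIntegral_algebraMap_iff (algebraMap ℚ Om).injective).1 h3
  obtain ⟨a, ha⟩ := IsIntegrallyClosed.isIntegral_iff.1 h2
  refine ⟨a, Subtype.ext ?_⟩
  rw [← hq, ← ha]
  exact IsScalarTower.algebraMap_apply ℤ ℚ Om a

private lemma frk_root (l : ℕ) (hl : 0 < l) (x : ZZ) : ∃ y : ZZ, y ^ l = x := by
  obtain ⟨y, hy⟩ := IsAlgClosed.exists_pow_nat_eq (x : Om) hl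
  have h1 : IsIntegral ℤ y := by
    have h2 : IsIntegral ℤ (y ^ l) := by
      rw [hy]
      exact x.2
    exact IsIntegral.of_pow hl h2
  exact ⟨⟨y, h1⟩, Subtype.ext hy⟩

private lemma frk_fermat (l : ℕ) (hl : l.Prime) (z : ℤ) : (l : ℤ) ∣ z ^ l - z := by
  have : Fact l.Prime := ⟨hl⟩
  rw [← ZMod.intCast_zmod_eq_zero_iff_dvd]
  push_cast
  rw [ZMod.pow_card, sub_self]

/-- Frobenius elements in `Gal(Om/ℚ)`. -/
private lemma frk_ex (l : ℕ) (hl : l.Prime) (P : Ideal ZZ) (hP : P.IsPrime) (hlP : (l : ZZ) ∈ P) :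
    ∃ φ : Gal(Om/ℚ), Fro P l φ := by
  have hlF : Fact l.Prime := ⟨hl⟩
  have hgal := frk_gal
  have halg := frk_alg
  let _ : TopologicalSpace ZZ := ⊥
  have : DiscreteTopology ZZ := ⟨rfl⟩
  have : Algebra.IsInvariant ℤ ZZ Gal(Om/ℚ) := frk_inv
  have : ContinuousSMul Gal(Om/ℚ) ZZ := by
    rw [continuousSMul_iff_stabilizer_isOpen]
    intro x
    have h1 := stabilizer_isOpen_of_isIntegral (K := ℚ) (x : Om)
    have h2 : (MulAction.stabilizer Gal(Om/ℚ) x : Set Gal(Om/ℚ)) =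
        (MulAction.stabilizer Gal(Om/ℚ) (x : Om) : Set Gal(Om/ℚ)) := by
      ext g
      rw [SetLike.mem_coe, SetLike.mem_coe, MulAction.mem_stabilizer_iff,
        MulAction.mem_stabilizer_iff]
      exact Subtype.ext_iff
    rw [h2]
    exact h1
  have : P.LiesOver (P.under ℤ) := ⟨rfl⟩
  have hchar : CharP (ZZ ⧸ P) l := by
    have h1 : ((l : ℕ) : ZZ ⧸ P) = 0 := by
      rw [← map_natCast (Ideal.Quotient.mk P), Ideal.Quotient.eq_zero_iff_mem]
      exact hlP
    exact (CharP.charP_iff_prime_eq_zero hl).2 h1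
  let φ : (ZZ ⧸ P) →ₐ[ℤ ⧸ P.under ℤ] (ZZ ⧸ P) :=
    { frobenius (ZZ ⧸ P) l with
      commutes' := by
        intro r
        obtain ⟨z, rfl⟩ := Ideal.Quotient.mk_surjective r
        change (algebraMap (ℤ ⧸ P.under ℤ) (ZZ ⧸ P) (Ideal.Quotient.mk _ z)) ^ l = _
        rw [← map_pow, ← map_pow, ← sub_eq_zero, ← map_sub, ← map_sub]
        have h1 : z ^ l - z ∈ P.under ℤ := by
          obtain ⟨w, hw⟩ := frk_fermat l hl z
          rw [hw]
          refine Ideal.mul_mem_right _ _ ?_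
          rw [Ideal.under_def, Ideal.mem_comap]
          simpa using hlP
        rw [Ideal.Quotient.eq_zero_iff_mem.2 h1, map_zero] }
  have hφ : ∀ x, φ x = x ^ l := fun x => rfl
  have hbij : Function.Bijective φ := by
    constructor
    · intro x y hxy
      rw [hφ, hφ, ← sub_eq_zero, ← sub_pow_char] at hxy
      exact sub_eq_zero.1 (pow_eq_zero_iff hl.pos.ne' |>.1 hxy)
    · intro x
      obtain ⟨z, rfl⟩ := Ideal.Quotient.mk_surjective x
      obtain ⟨y, hy⟩ := frk_root l hl.pos z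
      exact ⟨Ideal.Quotient.mk P y, by rw [hφ, ← map_pow, hy]⟩
  obtain ⟨σ, hσ⟩ := Ideal.Quotient.stabilizerHom_surjective_of_profinite (G := Gal(Om/ℚ))
    (P.under ℤ) P (AlgEquiv.ofBijective φ hbij)
  refine ⟨(σ : Gal(Om/ℚ)), ?_⟩
  intro x
  rw [← Ideal.Quotient.eq, map_pow]
  exact DFunLike.congr_fun hσ (Ideal.Quotient.mk P x)

private lemma frk_mul : wO * (1 - wO) = 2 := by
  linear_combination -wO_sq

private lemma frk_two {P : Ideal ZZ} (hP : P.IsPrime) (h : MP P wO) : (2 : ZZ) ∈ P := by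
  have h1 : VP P (1 - wO) := VP.one.sub h.vp
  have h2 : MP P 2 := by
    rw [← frk_mul]
    exact MP.mul_right h h1
  have h3 : MP P ((2 : ℕ) : Om) := by
    simpa using h2
  have h4 := (MP.nat_iff (P := P) 2).1 h3
  simpa using h4

private lemma frk_int : IsIntegral ℤ wO := by
  refine ⟨Polynomial.X ^ 2 - Polynomial.X + Polynomial.C 2, ?_, ?_⟩
  · have h : (Polynomial.X ^ 2 - Polynomial.X + Polynomial.C 2 : Polynomial ℤ) =
        Polynomial.X ^ 2 + (-Polynomial.X + Polynomial.C 2) := by ring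
    rw [h]
    apply Polynomial.monic_X_pow_add
    compute_degree
    norm_num
  · simp only [Polynomial.eval₂_add, Polynomial.eval₂_sub, Polynomial.eval₂_pow,
      Polynomial.eval₂_X, Polynomial.eval₂_C, wO_sq]
    simp

private lemma frk_fix {P : Ideal ZZ} (hP : P.IsPrime) (h : MP P wO) (φ : Gal(Om/ℚ))
    (hφ : Fro P 2 φ) : φ wO = wO := by
  have h1 : (φ wO) ^ 2 = φ wO - 2 := by
    rw [← map_pow, wO_sq, map_sub, map_ofNat]
  have h2 : (φ wO - wO) * (φ wO - (1 - wO)) = 0 := by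
    linear_combination h1 - wO_sq
  rcases mul_eq_zero.1 h2 with h3 | h3
  · exact sub_eq_zero.1 h3
  · exfalso
    have h4 : φ wO = 1 - wO := sub_eq_zero.1 h3
    have h5 := hφ ⟨wO, frk_int⟩
    have h6 := (MP.coe_iff (P := P) _).2 h5
    have h7 : ((φ • (⟨wO, frk_int⟩ : ZZ) - (⟨wO, frk_int⟩ : ZZ) ^ 2 : ZZ) : Om) =
        φ wO - wO ^ 2 := rfl
    rw [h7, h4] at h6
    have h8 : MP P (wO + wO ^ 2) := by
      rw [pow_two]
      exact h.add (MP.mul_right h h.vp)
    have h9 := h6.add h8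
    have h10 : 1 - wO - wO ^ 2 + (wO + wO ^ 2) = 1 := by ring
    rw [h10] at h9
    exact MP.one_not h9

theorem tFrK : S_FrK := by
  intro P hP
  obtain ⟨h1, _, h3⟩ := hP
  have h4 : ((2 : ℕ) : ZZ) ∈ P := by
    have := frk_two h1 h3
    simpa using this
  obtain ⟨φ, hφ⟩ := frk_ex 2 Nat.prime_two P h1 h4
  refine ⟨φ, ?_, hφ⟩
  have h5 := frk_fix h1 h3 φ hφ
  unfold GK KQ
  rw [IntermediateField.mem_fixingSubgroup_iff]
  intro x hx
  induction hx using IntermediateField.adjoin_induction with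
  | mem x hx =>
    rw [Set.mem_singleton_iff] at hx
    rw [hx]
    exact h5
  | algebraMap x => exact φ.commutes x
  | add x y _ _ hx hy => rw [map_add, hx, hy]
  | inv x _ hx => rw [map_inv₀, hx]
  | mul x y _ _ hx hy => rw [map_mul, hx, hy]

end Pool.Agent.DI.FH
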