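import Pool.Agent.Lib.DI.FH.Spec

/-!
# Theorem DI, part FH, module GalF: the Frobenius element on `L` and the automorphisms `σ_v`
-/

set_option autoImplicit false

open scoped Pointwise

noncomputable section

namespace Pool.Agent.DI.FH

open Pool.Agent.MuZ Pool.Agent.DI

private theorem GalF_cj (a : OO) : cjO a * a = ((Nm a : ℤ) : OO) := by
  have h1 : (cjO a * a).re = (cjO a).re * a.re + -2 * (cjO a).im * a.im :=
    QuadraticAlgebra.re_mul (cjO a) a
  have h2 : (cjO a * a).im = (cjO a).re * a.im + (cjO a).im * a.re + 1 * (cjO a).im * a.im :=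
    QuadraticAlgebra.im_mul (cjO a) a
  have h3 : (cjO a).re = a.re + a.im := rfl
  have h4 : (cjO a).im = -a.im := rfl
  rw [h3, h4] at h1 h2
  apply QuadraticAlgebra.ext
  · rw [h1]
    change _ = Nm a
    unfold Nm
    ring
  · rw [h2]
    change _ = (0 : ℤ)
    ring

private theorem GalF_cancel (f : ℕ) (a c : OO) (ha : Cop a f) (h : (f : OO) ∣ a * c) :
    (f : OO) ∣ c := by
  obtain ⟨u, w, huw⟩ := ha
  have h1 : (f : OO) ∣ ((Nm a : ℤ) : OO) * c := by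
    rw [← GalF_cj, mul_assoc]
    exact h.mul_left _
  have h2 : c = (u : OO) * (((Nm a : ℤ) : OO) * c) + (f : OO) * ((w : OO) * c) := by
    have h3 : (u : OO) * ((Nm a : ℤ) : OO) + (w : OO) * (f : OO) = 1 := by
      exact_mod_cast congrArg (Int.cast : ℤ → OO) huw
    calc c = 1 * c := (one_mul c).symm
      _ = ((u : OO) * ((Nm a : ℤ) : OO) + (w : OO) * (f : OO)) * c := by rw [h3]
      _ = _ := by ring
  rw [h2]
  exact dvd_add (h1.mul_left _) (dvd_mul_right _ _)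

private theorem GalF_mul (hN : ∀ v u : OO, Nm (v * u) = Nm v * Nm u) {τ τ' : Gal(Om/ℚ)} {N : ℕ}
    {a a' : OO} (h : Psi τ N a) (h' : Psi τ' N a') : Psi (τ * τ') N (a * a') := by
  refine ⟨?_, fun v => ⟨?_, ?_⟩⟩
  · unfold Cop
    rw [hN]
    exact IsCoprime.mul_left h.1 h'.1
  · change τ (τ' (xO (toC v / N))) = _
    rw [(h'.2 v).1, (h.2 (a' * v)).1, mul_assoc]
  · change τ (τ' (yO (toC v / N))) = _
    rw [(h'.2 v).2, (h.2 (a' * v)).2, mul_assoc]

private theorem GalF_uni (hE1 : S_E1) (hN : ∀ v u : OO, Nm (v * u) = Nm v * Nm u) (f : ℕ)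
    (hf : 0 < f) (τ τ' : Gal(Om/ℚ)) (hτ : τ ∈ GK) (hτ' : τ' ∈ GK) (a a' : OO) (h : Psi τ f a)
    (h' : Psi τ' f a') (hd : (f : OO) ∣ a - a' ∨ (f : OO) ∣ a + a') (β : Om) (hβ : β ∈ Lf f) :
    τ β = τ' β := by
  have hρ : τ⁻¹ * τ' ∈ GK := GK.mul_mem (GK.inv_mem hτ) hτ'
  obtain ⟨c, hc⟩ := hE1.1 (τ⁻¹ * τ') hρ f hf
  have h1 := GalF_mul hN h hc
  rw [mul_inv_cancel_left] at h1
  have h2 := hE1.2 τ' f (a * c) a' hf h1 h'
  have h3 : (f : OO) ∣ c - 1 ∨ (f : OO) ∣ c + 1 := by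
    rcases hd with hd | hd
    · left
      apply GalF_cancel f a _ h.1
      have e : a * (c - 1) = (a * c - a') - (a - a') := by ring
      rw [e]
      exact dvd_sub h2 hd
    · right
      apply GalF_cancel f a _ h.1
      have e : a * (c + 1) = (a * c - a') + (a + a') := by ring
      rw [e]
      exact dvd_add h2 hd
  have h4 : Hf f c := by
    refine ⟨hc.1, 1, ?_⟩
    have e : c ^ 2 ^ 1 - 1 = (c - 1) * (c + 1) := by ring
    rw [e]
    rcases h3 with h3 | h3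
    · exact h3.mul_right _
    · exact h3.mul_left _
  have h5 : (τ⁻¹ * τ') β = β := hβ (τ⁻¹ * τ') hρ c hc h4
  have h6 : τ ((τ⁻¹ * τ') β) = τ' β := by
    change (τ * (τ⁻¹ * τ')) β = τ' β
    rw [mul_inv_cancel_left]
  rw [← h6, h5]

private theorem GalF_uni' (hE1 : S_E1) (hN : ∀ v u : OO, Nm (v * u) = Nm v * Nm u) (f : ℕ)
    (hf : 0 < f) (τ τ' : Gal(Om/ℚ)) (hτ : τ ∈ GK) (hτ' : τ' ∈ GK) (a : OO)
    (h : Psi τ f a ∨ Psi τ f (-a)) (h' : Psi τ' f a ∨ Psi τ' f (-a)) (β : Om) (hβ : β ∈ Lf f) :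
    τ β = τ' β := by
  rcases h with h | h <;> rcases h' with h' | h'
  · exact GalF_uni hE1 hN f hf τ τ' hτ hτ' a a h h' (Or.inl (by simp)) β hβ
  · exact GalF_uni hE1 hN f hf τ τ' hτ hτ' a (-a) h h' (Or.inr (by simp)) β hβ
  · exact GalF_uni hE1 hN f hf τ τ' hτ hτ' (-a) a h h' (Or.inr (by simp)) β hβ
  · exact GalF_uni hE1 hN f hf τ τ' hτ hτ' (-a) (-a) h h' (Or.inl (by simp)) β hβ

theorem tGalF : S_GalF := by
  intro hE1 hE3 hE9 hNor f hodd h7 P hP φ hφ hFr σ hσ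
  obtain ⟨n1, n2, n3, n4, n5, n6, n7, n8, n9, n10, n11, n12, n13⟩ := hNor
  have hf : 0 < f := hodd.pos
  have hL : ∀ (τ : Gal(Om/ℚ)), ∀ x ∈ Lf f, τ x ∈ Lf f := (hE9 f hodd h7).1
  refine ⟨fun x hx => hL φ x hx, ?_, ?_⟩
  · intro τ hτ v
    have h1 : τ wO = wO := by
      have h2 := (IntermediateField.mem_fixingSubgroup_iff KQ τ).1 hτ
      exact h2 wO (IntermediateField.subset_adjoin ℚ {wO} rfl)
    change τ ((v.re : Om) + v.im * wO) = (v.re : Om) + v.im * wO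
    rw [map_add, map_mul, h1, map_intCast, map_intCast]
  · intro β hβ
    refine ⟨fun v _ => hL (σ v) β hβ, ?_, ?_, ?_⟩
    · intro v hv
      have hpv : Cop (pO * v) f := (n8 f v hodd).2 hv
      obtain ⟨s1, s2⟩ := hσ v hv
      obtain ⟨t1, t2⟩ := hσ (pO * v) hpv
      have hφ' : Psi φ f pO ∨ Psi φ f (-pO) :=
        hE3 pO pbO (Or.inl ⟨rfl, rfl⟩) P ⟨hP.1, hP.2.1⟩ (by rw [n3]; exact hP.2.2) φ hφ hFr f hodd
      have h3 : Psi (φ * σ v) f (pO * v) ∨ Psi (φ * σ v) f (-(pO * v)) := by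
        rcases hφ' with h | h <;> rcases s2 with h' | h'
        · left
          exact GalF_mul n1 h h'
        · right
          have := GalF_mul n1 h h'
          rwa [mul_neg] at this
        · right
          have := GalF_mul n1 h h'
          rwa [neg_mul] at this
        · left
          have := GalF_mul n1 h h'
          rwa [neg_mul_neg] at this
      exact GalF_uni' hE1 n1 f hf (σ (pO * v)) (φ * σ v) t1 (GK.mul_mem hφ s1) (pO * v) t2 h3 β hβ
    · intro v hv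
      obtain ⟨s1, s2⟩ := hσ v hv
      obtain ⟨t1, t2⟩ := hσ (-v) ((n9 f v).2 hv)
      rw [neg_neg] at t2
      exact GalF_uni' hE1 n1 f hf (σ (-v)) (σ v) t1 s1 v t2.symm s2 β hβ
    · obtain ⟨s1, s2⟩ := hσ 1 (n10 f)
      have h4 : Psi (1 : Gal(Om/ℚ)) f 1 := by
        refine ⟨n10 f, fun v => ?_⟩
        rw [one_mul]
        exact ⟨rfl, rfl⟩
      exact GalF_uni' hE1 n1 f hf (σ 1) 1 s1 GK.one_mem 1 s2 (Or.inl h4) β hβ

end Pool.Agent.DI.FH
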