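import Pool.Agent.Lib.DI.FH.Spec

/-!
# Theorem DI, part FH, module HalfO: half sums over a symmetric set
-/

set_option autoImplicit false

open scoped Pointwise

noncomputable section

namespace Pool.Agent.DI.FH

open Pool.Agent.MuZ Pool.Agent.DI

private def HalfO_pos (v : OO) : Prop := 0 < v.re ∨ (v.re = 0 ∧ 0 < v.im)

private theorem HalfO_neg (v : OO) (h : HalfO_pos v) : ¬ HalfO_pos (-v) := by
  have h1 : (-v).re = -v.re := rfl
  have h2 : (-v).im = -v.im := rfl
  unfold HalfO_pos at h ⊢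
  rw [h1, h2]
  omega

private theorem HalfO_tri (v : OO) (h0 : v ≠ 0) (h : ¬ HalfO_pos v) : HalfO_pos (-v) := by
  have h1 : (-v).re = -v.re := rfl
  have h2 : (-v).im = -v.im := rfl
  unfold HalfO_pos at h ⊢
  rw [h1, h2]
  by_contra h3
  apply h0
  apply QuadraticAlgebra.ext
  · change v.re = 0
    omega
  · change v.im = 0
    omega

theorem tHalfO : S_HalfO := by
  classical
  intro A s F h0 hs hF hA
  have h1 := Finset.sum_filter_add_sum_filter_not s HalfO_pos F
  have h2 : ∑ v ∈ s.filter (fun v => ¬ HalfO_pos v), F v = ∑ v ∈ s.filter HalfO_pos, F v := by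
    refine Finset.sum_nbij' (fun v => -v) (fun v => -v) ?_ ?_ ?_ ?_ ?_
    · intro v hv
      rw [Finset.mem_filter] at hv ⊢
      exact ⟨hs v hv.1, HalfO_tri v (fun h => h0 (h ▸ hv.1)) hv.2⟩
    · intro v hv
      rw [Finset.mem_filter] at hv ⊢
      exact ⟨hs v hv.1, HalfO_neg v hv.2⟩
    · intro v _
      exact neg_neg v
    · intro v _
      exact neg_neg v
    · intro v hv
      exact (hF v (Finset.mem_filter.1 hv).1).symm
  rw [h2] at h1
  have h3 : (∑ v ∈ s, F v) / 2 = ∑ v ∈ s.filter HalfO_pos, F v := by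
    rw [← h1, ← two_mul]
    exact mul_div_cancel_left₀ _ two_ne_zero
  rw [h3]
  exact A.sum_mem fun v hv => hA v (Finset.mem_filter.1 hv).1

end Pool.Agent.DI.FH
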