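import Pool.Agent.Lib.DI.FH.Spec

/-!
# Theorem DI, part FH: the hypothesis of Honda's argument for a series `thS F`
-/

set_option autoImplicit false

open scoped Pointwise

noncomputable section

namespace Pool.Agent.DI.FH

open Pool.Agent.MuZ Pool.Agent.DI

/-- the ring `V_P` -/
private def Main_A (P : Ideal ZZ) (hP : P.IsPrime) : Subring Om where
  carrier := {x | VP P x}
  mul_mem' hx hy := VP.mul hx hy
  one_mem' := VP.one
  add_mem' hx hy := VP.add hx hy
  zero_mem' := VP.zero
  neg_mem' hx := VP.neg hx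

private theorem Main_neg (v : OO) : Nm (-v) = Nm v := by
  unfold Nm
  rw [QuadraticAlgebra.re_neg, QuadraticAlgebra.im_neg]
  ring

/-- the coefficients of `f(X ^ 2)` -/
private theorem Main_cs (f : PowerSeries Om) (n : ℕ) :
    PowerSeries.coeff n (DI.F4.cs f (PowerSeries.X ^ 2)) =
      ∑ d ∈ Finset.range (n + 1), PowerSeries.coeff d f * (if n = 2 * d then 1 else 0) := by
  have hX : PowerSeries.constantCoeff ((PowerSeries.X : PowerSeries Om) ^ 2) = 0 := by
    rw [map_pow, PowerSeries.constantCoeff_X, zero_pow (by norm_num)]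
  rw [DI.F4.coeff_cs hX]
  refine Finset.sum_congr rfl fun d _ => ?_
  rw [← pow_mul, PowerSeries.coeff_X_pow]

private theorem Main_even (f : PowerSeries Om) (m : ℕ) :
    PowerSeries.coeff (2 * m) (DI.F4.cs f (PowerSeries.X ^ 2)) = PowerSeries.coeff m f := by
  rw [Main_cs, Finset.sum_eq_single m]
  · rw [if_pos rfl, mul_one]
  · intro d _ hd
    rw [if_neg (by omega), mul_zero]
  · intro h
    exact absurd (Finset.mem_range.2 (by omega)) h

private theorem Main_odd (f : PowerSeries Om) (n : ℕ) (hn : ∀ m, n ≠ 2 * m) :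
    PowerSeries.coeff n (DI.F4.cs f (PowerSeries.X ^ 2)) = 0 := by
  rw [Main_cs]
  refine Finset.sum_eq_zero fun d _ => ?_
  rw [if_neg (hn d), mul_zero]

theorem tMain : S_Main := by
  classical
  intro hNor hHalf P hAb F φ _ hneg hpO hunit n
  have hP : P.IsPrime := hAb.1
  obtain ⟨hmul, hNp, -, -, -, hdec, hinj, -⟩ := hNor
  have hNm2 : ∀ u : OO, Nm (pO * u) = 2 * Nm u := fun u => by rw [hmul, hNp]
  -- the rest
  have hR : (∑ v ∈ (lev n).filter (fun v => ¬ ∃ u, v = pO * u), F v) / 2 ∈ Main_A P hP := by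
    refine hHalf (Main_A P hP) _ F ?_ ?_ (fun v _ => hneg v) ?_
    · intro h
      exact (Finset.mem_filter.1 h).2 ⟨0, (mul_zero _).symm⟩
    · intro v hv
      obtain ⟨h1, h2⟩ := Finset.mem_filter.1 hv
      refine Finset.mem_filter.2 ⟨mem_lev.2 ((Main_neg v).trans (mem_lev.1 h1)), ?_⟩
      rintro ⟨u, hu⟩
      exact h2 ⟨-u, by rw [mul_neg, ← hu, neg_neg]⟩
    · intro v hv
      obtain ⟨_, h2⟩ := Finset.mem_filter.1 hv
      rcases hdec v with h3 | ⟨u, hu⟩
      · exact absurd h3 h2
      · rw [hu]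
        exact hunit u
  have hsplit : ∑ v ∈ lev n, F v = ∑ v ∈ (lev n).filter (fun v => ∃ u, v = pO * u), F v +
      ∑ v ∈ (lev n).filter (fun v => ¬ ∃ u, v = pO * u), F v :=
    (Finset.sum_filter_add_sum_filter_not _ _ _).symm
  have key : PowerSeries.coeff n (thS F -
      PowerSeries.C wO⁻¹ * DI.F4.cs (PowerSeries.map (φ : Om →+* Om) (thS F)) (PowerSeries.X ^ 2)) =
      (∑ v ∈ (lev n).filter (fun v => ¬ ∃ u, v = pO * u), F v) / 2 := by
    rw [map_sub, PowerSeries.coeff_C_mul]
    by_cases hn : ∃ m, n = 2 * m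
    · obtain ⟨m, rfl⟩ := hn
      have himg : (lev (2 * m)).filter (fun v => ∃ u, v = pO * u) =
          (lev m).image (fun u => pO * u) := by
        ext v
        rw [Finset.mem_filter, Finset.mem_image, mem_lev]
        constructor
        · rintro ⟨h1, u, rfl⟩
          refine ⟨u, mem_lev.2 ?_, rfl⟩
          rw [hNm2] at h1
          push_cast at h1
          linarith
        · rintro ⟨u, hu, rfl⟩
          refine ⟨?_, u, rfl⟩
          rw [hNm2, mem_lev.1 hu]
          push_cast
          rfl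
      have hsum : ∑ v ∈ (lev (2 * m)).filter (fun v => ∃ u, v = pO * u), F v =
          wO⁻¹ * φ (∑ u ∈ lev m, F u) := by
        rw [himg, Finset.sum_image (fun a _ b _ hab => hinj a b hab), map_sum, Finset.mul_sum]
        exact Finset.sum_congr rfl fun u _ => hpO u
      have hφ2 : (φ : Om →+* Om) ((∑ v ∈ lev m, F v) / 2) = φ (∑ u ∈ lev m, F u) / 2 := by
        change φ ((∑ v ∈ lev m, F v) / 2) = _
        rw [map_div₀, map_ofNat]
      rw [Main_even, PowerSeries.coeff_map, thS, PowerSeries.coeff_mk, PowerSeries.coeff_mk, hφ2,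
        hsplit, hsum]
      ring
    · have hemp : (lev n).filter (fun v => ∃ u, v = pO * u) = ∅ := by
        refine Finset.filter_eq_empty_iff.2 ?_
        rintro v hv ⟨u, rfl⟩
        have h1 := mem_lev.1 hv
        rw [hNm2] at h1
        have h2 := Nm_nonneg u
        exact hn ⟨(Nm u).toNat, by omega⟩
      rw [Main_odd _ _ (fun m hm => hn ⟨m, hm⟩), mul_zero, sub_zero, thS, PowerSeries.coeff_mk, hsplit,
        hemp, Finset.sum_empty, zero_add]
  rw [key]
  exact hR

end Pool.Agent.DI.FH
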