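import Pool.Agent.Lib.DI.FH.Spec

set_option autoImplicit false

open scoped Pointwise

noncomputable section

namespace Pool.Agent.DI.FH

open Pool.Agent.MuZ Pool.Agent.DI

private theorem re_mul' (v u : OO) : (v * u).re = v.re * u.re + -2 * v.im * u.im :=
  QuadraticAlgebra.re_mul v u

private theorem im_mul' (v u : OO) : (v * u).im = v.re * u.im + v.im * u.re + 1 * v.im * u.im :=
  QuadraticAlgebra.im_mul v u

private theorem Nm_mul' (v u : OO) : Nm (v * u) = Nm v * Nm u := by
  unfold Nm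
  rw [re_mul', im_mul']
  ring

private theorem re_pO (u : OO) : (pO * u).re = -2 * u.im := by
  rw [re_mul']
  change (0 : ℤ) * u.re + -2 * 1 * u.im = _
  ring

private theorem im_pO (u : OO) : (pO * u).im = u.re + u.im := by
  rw [im_mul']
  change (0 : ℤ) * u.im + 1 * u.re + 1 * 1 * u.im = _
  ring

private theorem Nm_pO : Nm pO = 2 := rfl

private theorem re_neg' (v : OO) : (-v).re = -v.re := rfl

private theorem im_neg' (v : OO) : (-v).im = -v.im := rfl

private theorem Nm_neg' (v : OO) : Nm (-v) = Nm v := by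
  unfold Nm
  rw [re_neg', im_neg']
  ring

private theorem ext' {v u : OO} (h1 : v.re = u.re) (h2 : v.im = u.im) : v = u :=
  QuadraticAlgebra.ext h1 h2

private theorem Nm_zero_iff (v : OO) : Nm v = 0 ↔ v = 0 := by
  constructor
  · intro h
    have h1 := im_sq_le v
    have h2 := re_sq_le v
    rw [h] at h1 h2
    have h3 : v.im = 0 := by
      have h4 : v.im ^ 2 = 0 := le_antisymm (by linarith) (sq_nonneg _)
      exact pow_eq_zero_iff (two_ne_zero) |>.1 h4
    have h5 : v.re = 0 := by
      have h4 : v.re ^ 2 = 0 := le_antisymm (by linarith) (sq_nonneg _)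
      exact pow_eq_zero_iff (two_ne_zero) |>.1 h4
    exact ext' h5 h3
  · rintro rfl
    rfl

private theorem Nm_one_iff (v : OO) : Nm v = 1 ↔ v = 1 ∨ v = -1 := by
  constructor
  · intro h
    have h1 := im_sq_le v
    rw [h] at h1
    have h3 : v.im = 0 := by
      have h4 : v.im ^ 2 < 1 := by linarith
      have h5 : v.im ^ 2 = 0 := le_antisymm (by linarith) (sq_nonneg _)
      exact pow_eq_zero_iff (two_ne_zero) |>.1 h5
    have h6 : v.re ^ 2 = 1 := by
      unfold Nm at h
      rw [h3] at h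
      linarith
    have h8 : (v.re - 1) * (v.re + 1) = 0 := by linear_combination h6
    rcases mul_eq_zero.1 h8 with h7 | h7
    · exact Or.inl (ext' (sub_eq_zero.1 h7) h3)
    · exact Or.inr (ext' (eq_neg_of_add_eq_zero_left h7) h3)
  · rintro (rfl | rfl)
    · rfl
    · rfl

private theorem dec (v : OO) : (∃ u, v = pO * u) ∨ ∃ u, v = 1 + pO * u := by
  rcases Int.even_or_odd' v.re with ⟨k, hk | hk⟩
  · left
    refine ⟨⟨v.im + k, -k⟩, ext' ?_ ?_⟩
    · rw [re_pO, hk]
      change 2 * k = -2 * (-k)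
      ring
    · rw [im_pO]
      change v.im = v.im + k + -k
      ring
  · right
    refine ⟨⟨v.im + k, -k⟩, ext' ?_ ?_⟩
    · change v.re = 1 + (pO * (⟨v.im + k, -k⟩ : OO)).re
      rw [re_pO, hk]
      change 2 * k + 1 = 1 + -2 * (-k)
      ring
    · change v.im = 0 + (pO * (⟨v.im + k, -k⟩ : OO)).im
      rw [im_pO]
      change v.im = 0 + (v.im + k + -k)
      ring

private theorem pO_inj (v u : OO) (h : pO * v = pO * u) : v = u := by
  have h1 := congrArg QuadraticAlgebra.re h
  have h2 := congrArg QuadraticAlgebra.im h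
  rw [re_pO, re_pO] at h1
  rw [im_pO, im_pO] at h2
  have h3 : v.im = u.im := by linarith
  exact ext' (by linarith) h3

private theorem Cop_pO (f : ℕ) (v : OO) (hf : Odd f) : Cop (pO * v) f ↔ Cop v f := by
  unfold Cop
  rw [Nm_mul', Nm_pO, IsCoprime.mul_left_iff]
  have h : Nat.Coprime 2 f := Nat.coprime_two_left.2 hf
  have h1 : IsCoprime (2 : ℤ) (f : ℤ) := by exact_mod_cast Nat.isCoprime_iff_coprime.2 h
  exact ⟨fun h2 => h2.2, fun h2 => ⟨h1, h2⟩⟩

private theorem eps_pO (v : OO) : eps (pO * v) = eps v := by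
  unfold eps
  rw [re_pO, im_pO]
  have h1 : jacobiSym (-2 * v.im + 4 * (v.re + v.im)) 7 = jacobiSym (4 * (v.re + 4 * v.im)) 7 := by
    rw [jacobiSym.mod_left]
    rw [jacobiSym.mod_left (4 * (v.re + 4 * v.im)) 7]
    congr 1
    refine Int.ModEq.eq ?_
    refine (Int.modEq_iff_dvd).2 ⟨2 * v.im, ?_⟩
    push_cast
    ring
  rw [h1, jacobiSym.mul_left]
  have h2 : jacobiSym 4 7 = 1 := by norm_num
  rw [h2, one_mul]

private theorem eps_neg' (v : OO) : eps (-v) = -eps v := by
  unfold eps
  rw [re_neg', im_neg']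
  have h1 : -v.re + 4 * -v.im = (-1) * (v.re + 4 * v.im) := by ring
  rw [h1, jacobiSym.mul_left]
  have h2 : jacobiSym (-1) 7 = -1 := by norm_num
  rw [h2]
  ring

private theorem eps_one : eps 1 = 1 := by
  have h1 : eps 1 = jacobiSym (1 + 4 * 0) 7 := rfl
  rw [h1]
  norm_num

private theorem toO_pO : toO pO = wO := by
  change ((0 : ℤ) : Om) + ((1 : ℤ) : Om) * wO = wO
  push_cast
  ring

/-- Elementary facts on the norm. -/
theorem tNor : S_Nor := by
  refine ⟨Nm_mul', Nm_pO, toO_pO, Nm_one_iff, Nm_zero_iff, dec, pO_inj, Cop_pO, ?_, ?_, eps_pO,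
    eps_neg', eps_one⟩
  · intro f v
    unfold Cop
    rw [Nm_neg']
  · intro f
    unfold Cop
    have h : Nm 1 = 1 := rfl
    rw [h]
    exact isCoprime_one_left

end Pool.Agent.DI.FH
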