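import Pool.Agent.Lib.DI.FH.Spec

/-!
# Theorem DI, part FH: `u_β` satisfies the hypothesis of Honda's argument (`S_UMain`)
-/

set_option autoImplicit false

open scoped Pointwise

noncomputable section

namespace Pool.Agent.DI.FH

open Pool.Agent.MuZ Pool.Agent.DI

private theorem toO_ap (v : OO) : toO v = (v.re : Om) + v.im * wO := rfl

private theorem memL (f : ℕ) (x : Om) (h : ∀ τ ∈ GK, τ x = x) : x ∈ Lf f :=
  fun τ hτ _ _ _ => h τ hτ

theorem tUMain : S_UMain := by
  intro hE1 hE3 hE8 hE9 hNor hHalf hGalF hMain f hf h7 P hP φ hφ hφF σ hσ N0 β hβ hβV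
  obtain ⟨g1, g2, g3⟩ := hGalF hE1 hE3 hE9 hNor f hf h7 P hP φ hφ hφF σ hσ
  obtain ⟨s1, s2, s3, s4⟩ := g3 β hβ
  obtain ⟨n1, n2, n3, n4, n5, n6, n7, n8, n9, n10, n11, n12, n13⟩ := id hNor
  have hPp : P.IsPrime := hP.1
  have hFd : ∀ v, Cop v f → uF f σ N0 β v = (N0 : Om) * (eps v : Om) * σ v β / toO v := fun v hv => by
    unfold uF
    rw [if_pos hv]
  have hFn : ∀ v, ¬ Cop v f → uF f σ N0 β v = 0 := fun v hv => by
    unfold uF
    rw [if_neg hv]
  have F0 : uF f σ N0 β 0 = 0 := by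
    by_cases hc : Cop 0 f
    · rw [hFd 0 hc, map_zero, div_zero]
    · exact hFn 0 hc
  have Fneg : ∀ v, uF f σ N0 β (-v) = uF f σ N0 β v := by
    intro v
    by_cases hc : Cop v f
    · rw [hFd v hc, hFd (-v) ((n9 f v).2 hc), n12, s3 v hc, map_neg]
      push_cast
      rw [div_neg, mul_neg, neg_mul, neg_div, neg_neg]
    · rw [hFn v hc, hFn (-v) fun h => hc ((n9 f v).1 h)]
  have FpO : ∀ v, uF f σ N0 β (pO * v) = wO⁻¹ * φ (uF f σ N0 β v) := by
    intro v
    by_cases hc : Cop v f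
    · rw [hFd v hc, hFd (pO * v) ((n8 f v hf).2 hc), n11, s2 v hc, map_mul toO, n3, map_div₀, map_mul,
        map_mul, map_intCast, map_intCast, g2 φ hφ v, div_eq_mul_inv, div_eq_mul_inv, mul_inv]
      ring
    · rw [hFn v hc, hFn (pO * v) fun h => hc ((n8 f v hf).1 h), map_zero, mul_zero]
  have FV : ∀ u, VP P (uF f σ N0 β (1 + pO * u)) := by
    intro u
    by_cases hc : Cop (1 + pO * u) f
    · rw [hFd _ hc, div_eq_mul_inv]
      have h1 : VP P (toO u) := by
        rw [toO_ap]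
        exact (VP.int _).add ((VP.int _).mul hP.2.2.vp)
      have h2 : UP P (toO (1 + pO * u)) := by
        refine UP.one.congr ?_
        rw [map_add, map_one, add_sub_cancel_left, map_mul, n3]
        exact hP.2.2.mul_right h1
      exact (((VP.int _).mul (VP.int _)).mul (hβV _ (hσ _ hc).1)).mul h2.inv.1
    · rw [hFn _ hc]
      exact VP.zero
  have hco : ∀ n, PowerSeries.coeff n (uS f σ N0 β) = (∑ v ∈ lev n, uF f σ N0 β v) / 2 := fun n => by
    unfold uS thS
    rw [PowerSeries.coeff_mk]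
  refine ⟨?_, ?_, ?_, hMain hNor hHalf P hP _ φ F0 Fneg FpO FV⟩
  · rw [← PowerSeries.coeff_zero_eq_constantCoeff_apply, hco]
    have : ∑ v ∈ lev 0, uF f σ N0 β v = 0 := Finset.sum_eq_zero fun v hv => by
      rw [mem_lev] at hv
      rw [(n5 v).1 (by exact_mod_cast hv), F0]
    rw [this, zero_div]
  · rw [hco]
    have h1 : lev 1 = {1, -1} := by
      ext v
      rw [mem_lev, Finset.mem_insert, Finset.mem_singleton, Nat.cast_one]
      exact n4 v
    have h2 : (1 : OO) ≠ -1 := by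
      intro h
      have := congrArg QuadraticAlgebra.re h
      change (1 : ℤ) = -1 at this
      omega
    have h3 : uF f σ N0 β 1 = N0 * β := by
      rw [hFd 1 (n10 f), n13, s4, map_one, Int.cast_one, mul_one, div_one]
    rw [h1, Finset.sum_pair h2, Fneg, h3]
    ring
  · intro n
    rw [hco]
    have hi : ∀ z : ℤ, (z : Om) ∈ Lf f := fun z => memL f _ fun τ _ => map_intCast τ z
    have h2 : (2 : Om) ∈ Lf f := by
      have := hi 2
      exact_mod_cast this
    refine div_mem (sum_mem fun v _ => ?_) h2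
    by_cases hc : Cop v f
    · rw [hFd v hc]
      exact div_mem (mul_mem (mul_mem (hi _) (hi _)) (s1 v hc)) (memL f _ fun τ hτ => g2 τ hτ v)
    · rw [hFn v hc]
      exact zero_mem _

end Pool.Agent.DI.FH
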