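import Pool.Agent.Lib.DI.FH.Spec
import Pool.Agent.Lib.DI.Util.UCop
import Pool.Agent.Lib.FW.E.Ine

/-! DI, part FH, module Unr: `L` is unramified at `2` (helper67). -/

set_option autoImplicit false

open scoped Pointwise NumberField WithZero

open IsDedekindDomain

noncomputable section

namespace Pool.Agent.DI.FH

open Pool.Agent.MuZ Pool.Agent.DI Pool.Agent.FW

/-- The valuation of `2` at an unramified prime. -/
private theorem Unr_two (L : Type) [Field L] [NumberField L] [IsGalois ℚ L]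
    (w : HeightOneSpectrum (𝓞 L)) (h2 : (2 : 𝓞 L) ∈ w.asIdeal)
    (hin : ∀ σ : Gal(L/ℚ), (∀ y : 𝓞 L, σ • y - y ∈ w.asIdeal) → σ = 1) :
    w.valuation L (2 : L) = WithZero.exp (-1 : ℤ) := by
  have hp2 : Prime (2 : ℤ) := Int.prime_two
  have hv : Ideal.span {(2 : ℤ)} ≠ ⊥ := by
    rw [Ne, Ideal.span_singleton_eq_bot]
    exact two_ne_zero
  let v : HeightOneSpectrum ℤ :=
    ⟨Ideal.span {2}, (Ideal.span_singleton_prime two_ne_zero).2 hp2, hv⟩
  have hwP : w.asIdeal.IsPrime := w.isPrime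
  have hvP : v.asIdeal.IsPrime := v.isPrime
  have hlies : w.asIdeal.LiesOver v.asIdeal := by
    refine (Ideal.liesOver_span_iff hwP.ne_top hp2).2 ?_
    rw [map_ofNat]
    exact h2
  have hgg : IsGaloisGroup Gal(L/ℚ) ℤ (𝓞 L) := IsGaloisGroup.of_isFractionRing Gal(L/ℚ) ℤ (𝓞 L) ℚ L
  have hbot : w.asIdeal.inertia Gal(L/ℚ) = ⊥ := by
    rw [eq_bot_iff]
    intro σ hσ
    rw [Subgroup.mem_bot]
    exact hin σ hσ
  have hone : Nat.card (w.asIdeal.inertia Gal(L/ℚ)) = 1 := by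
    rw [hbot]
    exact Subgroup.card_bot
  have h3 : Nat.card (w.asIdeal.inertia Gal(L/ℚ)) = Ideal.ramificationIdxIn v.asIdeal (𝓞 L) :=
    Ideal.card_inertia_eq_ramificationIdxIn v.asIdeal w.asIdeal
  have h4 := Ideal.ramificationIdxIn_eq_ramificationIdx v.asIdeal w.asIdeal Gal(L/ℚ)
  have h5 : v.asIdeal.ramificationIdx' w.asIdeal = w.asIdeal.ramificationIdx ℤ :=
    Ideal.ramificationIdx'_eq_ramificationIdx v.asIdeal w.asIdeal v.ne_bot
  have h6 := HeightOneSpectrum.intValuation_liesOver v w (2 : ℤ)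
  have h9 : algebraMap ℤ (𝓞 L) 2 = 2 := map_ofNat _ 2
  rw [h5, ← h4, ← h3, hone, pow_one,
    HeightOneSpectrum.intValuation_singleton v two_ne_zero rfl, h9] at h6
  have h7 := HeightOneSpectrum.valuation_of_algebraMap (K := L) w (2 : 𝓞 L)
  have h8 : (2 : L) = algebraMap (𝓞 L) L (2 : 𝓞 L) := (map_ofNat _ 2).symm
  rw [h8, h7, h6]

private theorem Unr_exp {a : ℤᵐ⁰} (h0 : a ≠ 0) (h : a < 1) : a ≤ WithZero.exp (-1 : ℤ) := by
  rw [← WithZero.exp_log h0] at h ⊢
  rw [← WithZero.exp_zero, WithZero.exp_lt_exp] at h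
  rw [WithZero.exp_le_exp]
  omega

/-- The hypotheses of `S_E8` for `Hf f`. -/
theorem unrFin (hE8 : S_E8) (f : ℕ) (hf : Odd f) : FiniteDimensional ℚ (Lf f) := by
  refine (hE8 f (Hf f) hf.pos ?_ (fun v h => h.1) ?_ ?_).1
  · refine ⟨?_, 1, ?_⟩
    · have h1 : Nm (-1 : OO) = 1 := by
        change (-1 : ℤ) ^ 2 + (-1) * 0 + 2 * 0 ^ 2 = 1
        norm_num
      unfold Cop
      rw [h1]
      exact isCoprime_one_left
    · rw [pow_one, neg_one_sq, sub_self]
      exact dvd_zero _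
  · rintro v u ⟨h1, k, h2⟩
    refine ⟨(UCop_add v u f).2 h1, k, ?_⟩
    have h3 : (f : OO) ∣ (v + f * u) ^ 2 ^ k - v ^ 2 ^ k := by
      refine dvd_trans ?_ (sub_dvd_pow_sub_pow _ _ _)
      rw [add_sub_cancel_left]
      exact dvd_mul_right _ _
    have h4 := dvd_add h3 h2
    rwa [sub_add_sub_cancel] at h4
  · rintro v u ⟨h1, k, h2⟩ ⟨h3, l, h4⟩
    refine ⟨(UCop_mul v u f).2 ⟨h1, h3⟩, k + l, ?_⟩
    have h5 : (f : OO) ∣ v ^ 2 ^ (k + l) - 1 := by
      refine dvd_trans h2 ?_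
      rw [pow_add, pow_mul]
      have h6 := sub_dvd_pow_sub_pow (v ^ 2 ^ k) 1 (2 ^ l)
      rwa [one_pow] at h6
    have h7 : (f : OO) ∣ u ^ 2 ^ (k + l) - 1 := by
      refine dvd_trans h4 ?_
      rw [add_comm, pow_add, pow_mul]
      have h6 := sub_dvd_pow_sub_pow (u ^ 2 ^ l) 1 (2 ^ k)
      rwa [one_pow] at h6
    have h8 : (v * u) ^ 2 ^ (k + l) - 1 =
        (v ^ 2 ^ (k + l) - 1) * u ^ 2 ^ (k + l) + (u ^ 2 ^ (k + l) - 1) := by
      rw [mul_pow]
      ring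
    rw [h8]
    exact dvd_add (dvd_mul_of_dvd_left h5 _) h7

/-- **Unramified fields at `2`**, general form: `M` is a number field, normal over `ℚ`, and the inertia
group of `P` (above `2`) fixes `M`.  An element of `M` in `M_P` is divisible by `2` in `V_P`. -/
theorem unrG (M : IntermediateField ℚ Om) (hfd : FiniteDimensional ℚ M)
    (hM : ∀ τ : Gal(Om/ℚ), ∀ x ∈ M, τ x ∈ M) (P : Ideal ZZ) (hNP : Npr P) (h2P : MP P 2)
    (hI : ∀ τ ∈ P.inertia Gal(Om/ℚ), ∀ x ∈ M, τ x = x) :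
    ∀ x ∈ M, MP P x → VP P (x / 2) := by
  intro x hxL hxM
  have hP : P.IsPrime := hNP.1
  by_cases hx0 : x = 0
  · rw [hx0, zero_div]
    exact VP.zero
  have hNF : NumberField M := NumberField.mk
  have hN0 : @Normal ℚ M _ _ (IntermediateField.algebra' M) := by
    rw [IntermediateField.normal_iff_forall_map_le']
    rintro σ _ ⟨y, hy, rfl⟩
    exact hM σ y hy
  have hN : Normal ℚ M := by
    convert hN0
    exact Subsingleton.elim _ _
  have hG : IsGalois ℚ M := ⟨⟩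
  -- the prime `w`
  have h2Z : (2 : ZZ) ∈ P := by
    have h1 := (MP.nat_iff (P := P) 2).1 (by exact_mod_cast h2P)
    exact_mod_cast h1
  have hwp : (P.comap (iO M)).IsPrime := Ideal.comap_isPrime _ _
  have h2w : (2 : 𝓞 M) ∈ P.comap (iO M) := by
    rw [Ideal.mem_comap, map_ofNat]
    exact h2Z
  have hwb : P.comap (iO M) ≠ ⊥ := by
    intro h
    rw [h, Ideal.mem_bot] at h2w
    exact two_ne_zero h2w
  let w : HeightOneSpectrum (𝓞 M) := ⟨P.comap (iO M), hwp, hwb⟩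
  have hin : ∀ σ : Gal(M/ℚ), (∀ y : 𝓞 M, σ • y - y ∈ w.asIdeal) → σ = 1 := by
    intro σ hσ
    let σ' : Gal(Om/ℚ) := σ.liftNormal Om
    have hσ' : ∀ z : M, σ' (z : Om) = ((σ z : M) : Om) := fun z =>
      σ.liftNormal_commutes Om z
    obtain ⟨τ, hτ, hτL⟩ := tEIne M P hP σ' (by
      intro y hy
      have hyi : IsIntegral ℤ (⟨(y : Om), hy⟩ : M) := by
        have h1 : IsIntegral ℤ (y : Om) := y.2
        exact (isIntegral_algHom_iff ((algebraMap M Om).toIntAlgHom)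
          (algebraMap M Om).injective).1 h1
      let z : 𝓞 M := ⟨⟨(y : Om), hy⟩, hyi⟩
      have h3 : iO M (σ • z - z) = σ' • y - y := by
        apply Subtype.ext
        rw [map_sub]
        change ((iO M (σ • z) : ZZ) : Om) - ((iO M z : ZZ) : Om) = σ' (y : Om) - (y : Om)
        rw [show (y : Om) = (((⟨(y : Om), hy⟩ : M)) : Om) from rfl, hσ']
        rfl
      rw [← h3]
      exact hσ z)
    apply AlgEquiv.ext
    intro z
    apply Subtype.ext
    rw [← hσ' z, ← hτL z z.2]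
    exact hI τ hτ z z.2
  have hw2 : w.valuation M (2 : M) = WithZero.exp (-1 : ℤ) :=
    Unr_two M w h2w hin
  have hfrac : ∀ (z : M) (a d : 𝓞 M),
      z * algebraMap (𝓞 M) M d = algebraMap (𝓞 M) M a →
      ((z : M) : Om) * ((iO M d : ZZ) : Om) = ((iO M a : ZZ) : Om) := by
    intro z a d h
    exact congrArg (fun t : M => (t : Om)) h
  have hVP : ∀ z : M, w.valuation M z ≤ 1 → VP P (z : Om) := by
    intro z hz
    obtain ⟨a, d, hd⟩ := w.exists_primeCompl_mul_eq_of_integer z hz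
    exact ⟨iO M a, iO M d, fun h => d.2 h, hfrac z a d hd⟩
  set y : M := ⟨x, hxL⟩ with hy
  have hy0 : y ≠ 0 := fun h => hx0 (congrArg Subtype.val h)
  have hv0 : w.valuation M y ≠ 0 := (Valuation.ne_zero_iff _).2 hy0
  have h1 : w.valuation M y < 1 := by
    by_contra hcon
    rw [not_lt] at hcon
    have h3 : w.valuation M y⁻¹ ≤ 1 := by
      rw [map_inv₀]
      exact inv_le_one_of_one_le₀ hcon
    have h4 : VP P x⁻¹ := hVP y⁻¹ h3
    have h5 := MP.mul_left h4 hxM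
    rw [inv_mul_cancel₀ hx0] at h5
    exact MP.one_not h5
  have h3 := Unr_exp hv0 h1
  have h4 : w.valuation M (y / 2) ≤ 1 := by
    rw [map_div₀, hw2]
    exact div_le_one_of_le₀ h3 bot_le
  have h5 := hVP (y / 2) h4
  exact h5

theorem tUnr : S_Unr := by
  intro hE8 hE9 f hf h7 P hNP h2P
  obtain ⟨hE91, -, hE93, -⟩ := hE9 f hf h7
  exact unrG (Lf f) (unrFin hE8 f hf) hE91 P hNP h2P (hE93 P hNP h2P)

end Pool.Agent.DI.FH
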