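import Pool.Agent.Lib.DI.FH.Spec

/-! DI, part FH, module VS: `V_P` as a valuation subring. -/

set_option autoImplicit false

open scoped Pointwise

noncomputable section

namespace Pool.Agent.DI.FH

open Pool.Agent.MuZ Pool.Agent.DI

theorem tVS : S_VS := by
  intro P hP
  have hprime : P.IsPrime := hP.1
  have hww : wO * (1 - wO) = 2 := by
    have h := wO_sq
    linear_combination -h
  have hw0 : wO ≠ 0 := by
    intro h
    rw [h, zero_mul] at hww
    exact two_ne_zero hww.symm
  have hwM : MP P wO := hP.2.2
  have hwV : VP P wO := hwM.vp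
  let V : ValuationSubring Om :=
    { carrier := {x | VP P x}
      mul_mem' := fun ha hb => VP.mul ha hb
      one_mem' := VP.one
      add_mem' := fun ha hb => VP.add ha hb
      zero_mem' := VP.zero
      neg_mem' := fun ha => VP.neg ha
      mem_or_inv_mem' := fun x => VP.or_vp_inv x }
  refine ⟨V, fun x => Iff.rfl, hww, hw0, hwV, ?_, ?_⟩
  · intro h
    have h1 : VP P wO⁻¹ := h
    have h2 := MP.mul_left h1 hwM
    rw [inv_mul_cancel₀ hw0] at h2
    exact MP.one_not h2
  · rw [← hww]
    exact MP.mul_right hwM (VP.one.sub hwV)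

end Pool.Agent.DI.FH
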