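import Pool.Agent.Lib.DI.F4.All
import Pool.Agent.Lib.DI.FH.VS
import Pool.Agent.Lib.DI.FH.Nor
import Pool.Agent.Lib.DI.FH.HalfO
import Pool.Agent.Lib.DI.FH.FrK
import Pool.Agent.Lib.DI.FH.Unr
import Pool.Agent.Lib.DI.FH.GalF
import Pool.Agent.Lib.DI.FH.FrCo
import Pool.Agent.Lib.DI.FH.Main
import Pool.Agent.Lib.DI.FH.UMain
import Pool.Agent.Lib.DI.FH.FH

/-! Theorem DI, part FH (F4, F6 and H5): assembly. -/

set_option autoImplicit false

namespace Pool.Agent.DI.FH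

/-- **F4, F6 and H5.** -/
theorem aFH : S_FH := tFH tVS tNor tHalfO tFrK tUnr tGalF tFrCo tMain tUMain _root_.DI.F4.aF6

end Pool.Agent.DI.FH
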