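import Pool.Agent.Lib.DI.FH.Defs

/-!
# Theorem DI, part FH: application of Honda's argument (H5), statements

Author helper12 (notes 4042 F6, 4044 H5).  Every `S_X` is a `Prop` with a complete proof in its
docstring; it is to be proved as `theorem tX : (hypotheses, in the order named) → S_X`.  Definitions:
`Defs.lean` (`lev n` = the elements of `O` of norm `n`, `mem_lev`, `thS F` = `∑ q^(N v) F(v)` modulo `± 1`,
`uS f σ N0 β` = the series `u_β`, `IsSig f σ`), `DI/Defs.lean`, `DI/Iface.lean`, `DI/Val.lean` (`VP`, `MP`, `UP`),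
`DI/F4/Defs.lean` (composition `cs`, `Tof`).
-/

set_option autoImplicit false

open scoped Pointwise

noncomputable section

namespace Pool.Agent.DI.FH

open Pool.Agent.MuZ Pool.Agent.DI

/-- (50 lines) **VS**.  `V_P` as a valuation subring of `Om`; `π` is in its maximal ideal.
Proof.  Carrier `{x | VP P x}`: `VP.zero, one, add, neg, mul`, `VP.or_vp_inv` (`DI/Val.lean`).  `wO` is a root
of `t² = t - 2` (`wO_sq`), so `wO (1 - wO) = 2`.  `MP P wO` (`AbPi`) gives `VP P wO` (`MP.vp`), and `wO⁻¹` is not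
in `V_P` (otherwise `1 = wO⁻¹ wO` is in `M_P`: `MP.mul_left`, `MP.one_not`; `wO ≠ 0` as `wO (1 - wO) = 2`). `2 = wO (1 - wO)`
is in `M_P`. -/
def S_VS : Prop := ∀ P : Ideal ZZ, AbPi P → ∃ V : ValuationSubring Om, (∀ x : Om, x ∈ V ↔ VP P x) ∧
  wO * (1 - wO) = 2 ∧ wO ≠ 0 ∧ VP P wO ∧ wO⁻¹ ∉ V ∧ MP P 2

/-- (70 lines) **Nor**.  Elementary facts on the norm.
Proof.  (1) `Nm (v u) = Nm v * Nm u` (`QuadraticAlgebra.re_mul`, `im_mul`, `ring`; also in `DI/Util`);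
(2) `Nm pO = 2`, `toO pO = wO`; (3) `7 (im)² ≤ 4 Nm v` (`im_sq_le`), so `Nm v = 1` gives `im = 0` (`7 > 4`), `re² = 1`;
(4) if `Nm v = 0` then `im = 0`, `re = 0`; (5) `v = ⟨a, b⟩`, `pO = ⟨0, 1⟩`: if `a` is even then
`v = pO * ⟨b + a/2, -(a/2)⟩` (`pO * ⟨c, d⟩ = ⟨-2 d, c + d⟩`); if `a` is odd, `v = 1 + pO u`; (6) `pO v = pO u` gives `v = u`
(compare `im`, `re`); (7) `Cop (pO v) f ↔ Cop v f` for `f` odd: `IsCoprime (2 * n) f ↔ IsCoprime 2 f ∧ IsCoprime n f`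
(`IsCoprime.mul_left_iff`) and `IsCoprime (2 : ℤ) f` (`Int.isCoprime_iff_gcd_eq_one`, or `f = 2 k + 1`);
`Cop (-v) f ↔ Cop v f` (`Nm (-v) = Nm v`); (8) `eps (pO v) = eps v`: with `v = ⟨a, b⟩`, `pO v = ⟨-2 b, a + b⟩` and
`-2 b + 4 (a + b) = 2 (2 a + b)`, `= 4 (a + 4 b)` modulo `7` (difference `14 b`), `jacobiSym.mul_left`,
`jacobiSym 4 7 = 1` (`decide`/`rfl`/`norm_num`), `jacobiSym.mod_left`; (9) `eps (-v) = - eps v`: `jacobiSym (-1) 7 = -1`;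
`eps 1 = 1`. -/
def S_Nor : Prop :=
  (∀ v u : OO, Nm (v * u) = Nm v * Nm u) ∧ Nm pO = 2 ∧ toO pO = wO ∧
  (∀ v : OO, Nm v = 1 ↔ v = 1 ∨ v = -1) ∧ (∀ v : OO, Nm v = 0 ↔ v = 0) ∧
  (∀ v : OO, (∃ u, v = pO * u) ∨ ∃ u, v = 1 + pO * u) ∧ (∀ v u : OO, pO * v = pO * u → v = u) ∧
  (∀ (f : ℕ) (v : OO), Odd f → (Cop (pO * v) f ↔ Cop v f)) ∧
  (∀ (f : ℕ) (v : OO), Cop (-v) f ↔ Cop v f) ∧ (∀ f : ℕ, Cop 1 f) ∧
  (∀ v : OO, eps (pO * v) = eps v) ∧ (∀ v : OO, eps (-v) = -eps v) ∧ eps 1 = 1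

/-- (70 lines) **HalfO**.  Half sums over a symmetric finite set: if `s = -s`, `0 ∉ s`, `F(-v) = F(v)` and all `F(v)` are
in the subring `A` of `Om` then `(∑_(v ∈ s) F v) / 2 ∈ A`.
Proof.  Let `s⁺` be the set of the `v = ⟨a, b⟩` in `s` with `0 < a`, or `a = 0` and `0 < b`.  `s` is the disjoint union of
`s⁺` and its image under `v ↦ -v`, so `∑_(v ∈ s) F v = 2 ∑_(v ∈ s⁺) F v`.  (Or: `DI/F4/Spec.lean` `S_Half` for pairs of
integers, transported with the injection `pr`.) -/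
def S_HalfO : Prop := ∀ (A : Subring Om) (s : Finset OO) (F : OO → Om), (0 : OO) ∉ s →
  (∀ v ∈ s, -v ∈ s) → (∀ v ∈ s, F (-v) = F v) → (∀ v ∈ s, F v ∈ A) → (∑ v ∈ s, F v) / 2 ∈ A

/-- (100 lines) **FrK**.  There is a Frobenius element at `P` in `Gal(Om/K)`.
Proof.  (1) There is `φ ∈ Gal(Om/ℚ)` with `φ • b - b² ∈ P` for all `b : ZZ`: this is the main part of the proof of `frob` in
`Pool/Agent/Lib/MuZ/Frob.lean` (there `hσ'`; copy it with `l = 2`; `(2 : ZZ) ∈ P` as `MP P 2`, `MP.nat_iff`/`MP.coe_iff`), or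
`FW/Fr/FrE.lean`.  (2) Every such `φ` fixes `wO`: `φ wO` is a root of `t² = t - 2`, so `φ wO = wO` or `φ wO = 1 - wO`
(`(t - wO)(t - (1 - wO)) = t² - t + wO (1 - wO)`).  `wO` is integral over `ℤ`, `VP.frob` gives `MP P (φ wO - wO²)`, and
`MP P wO`, so `MP P (φ wO)`; if `φ wO = 1 - wO` then `MP P 1`, contradiction (`MP.one_not`).  (3) `GK` is
`KQ.fixingSubgroup`, `KQ = ℚ(wO)` (`IntermediateField.mem_fixingSubgroup_iff`, `IntermediateField.adjoin_induction`, or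
`KQ ≤ IntermediateField.fixedField (Subgroup.zpowers φ)` via `adjoin_le_iff`). -/
def S_FrK : Prop := ∀ P : Ideal ZZ, AbPi P → ∃ φ ∈ GK, Fro P 2 φ

/-- (120 lines) **Unr** (from E8, E9).  `L` is unramified at `2`: an element of `L` in `M_P` is divisible by `2`, in the
valuation ring.
Proof.  `L = Lf f` is a number field (`S_E8`, with `H = Hf f`; `FixH f (Hf f) = Lf f`; the hypotheses of `S_E8`: `Hf f (-1)`
since `(-1)² = 1`; if `v^(2^k) ≡ 1`, `u^(2^l) ≡ 1` then `(v u)^(2^(k+l)) ≡ 1`, also in `DI/Util`) and normal over `ℚ` (`S_E9` (1):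
all `τ ∈ Gal(Om/ℚ)` map `L` to itself), so `IsGalois ℚ L`.  Let `w` be the prime ideal of `𝓞 L` of the `y` with
`(y : Om) ∈ P` (`w ≠ ⊥` since `2 ∈ w`; a `HeightOneSpectrum`), and `v` the prime `(2)` of `𝓞 ℚ` below it.  The inertia group of
`w` in `Gal(L/ℚ)` is trivial: if `s y - y ∈ w` for all `y ∈ 𝓞 L`, lift `s` to `σ ∈ Gal(Om/ℚ)` (`AlgEquiv.liftNormal`) and apply
`S_EIne` (`tEIne` in `FW/E/Ine.lean`): there is `τ ∈ P.inertia` with `τ = σ` on `L`, and by `S_E9` (3) `τ` fixes `L`: `s = 1`.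
As in the proof of `tEUn` (`FW/E/Un.lean`): the ramification index is `1` (`Ideal.card_inertia_eq_ramificationIdxIn`) and
`HeightOneSpectrum.valuation_liesOver` gives `w(2) = v(2) = exp(-1)` (`v` is generated by `2`:
`HeightOneSpectrum.intValuation_singleton` or similar).  Let `x ∈ L`, `MP P x`, `x ≠ 0`.  Then `w(x) < 1` (write `x = a / b` with
`a, b ∈ ZZ`, `a ∈ P`, `b ∉ P`; if `w(x) ≥ 1` then `w(x⁻¹) ≤ 1`, so `x⁻¹ = c / d` with `c, d ∈ 𝓞 L`, `d ∉ w`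
(`HeightOneSpectrum.valuation_le_one_iff..`/`exists_..`, in a Dedekind domain), so `VP P x⁻¹` and `MP P 1`, contradiction), so
`w(x) ≤ exp(-1) = w(2)` and `w(x/2) ≤ 1`, hence `x/2 = c/d` with `c, d ∈ 𝓞 L`, `d ∉ w`: `VP P (x/2)`. -/
def S_Unr : Prop := S_E8 → S_E9 → ∀ f : ℕ, Odd f → 7 ∣ f → ∀ P : Ideal ZZ, Npr P → MP P 2 →
  ∀ x ∈ Lf f, MP P x → VP P (x / 2)

/-- (100 lines) **GalF** (from E1, E3, E8; Nor).  The Frobenius element on `L` and the automorphisms `σ_v`.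
Proof.  PSI: `Psi τ N a`, `Psi τ' N a'` give `Psi (τ τ') N (a a')` (`τ (τ' x(v/N)) = τ x(a' v/N) = x(a a' v/N)`; `Cop` is
multiplicative).  UNIQUENESS: if `τ, τ' ∈ GK`, `Psi τ f a`, `Psi τ' f a'` and `f ∣ a - a'` or `f ∣ a + a'`, `β ∈ Lf f` then `τ β = τ' β`:
let `ρ = τ⁻¹ τ' ∈ GK`, `Psi ρ f c` for some `c` (`S_E1`); `Psi (τ ρ) f (a c)` and `Psi τ' f a'` with `τ ρ = τ'`, so `f ∣ a c - a'`
(`S_E1`, second part), so `f ∣ a (c - 1)` or `f ∣ a (c + 1)`; `a` is prime to `f` (`Cop a f`: multiply with the conjugate `cjO a`,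
`a * cjO a = Nm a`, and `IsCoprime (Nm a) f`), so `f ∣ c ∓ 1` and `f ∣ c² - 1`: `Hf f c` (`k = 1`).  By the definition of
`Lf f = FixH f (Hf f)`, `ρ β = β`.  (1) `φ` maps `L` to itself: `S_E9` (1).  (2) `S_E3` with `a = pO`: `Psi φ f pO` or
`Psi φ f (-pO)`; `σ v` is `Psi` for `± v`, `φ σ_v` for `± pO v` and `σ (pO v)` for `± pO v`: UNIQUENESS.  (3) `σ v` and `σ (-v)`:
`± v`; (4) `σ 1` and the identity (`Psi 1 f 1`).  `toO v` is fixed by `GK` (`wO ∈ KQ`). -/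
def S_GalF : Prop := S_E1 → S_E3 → S_E9 → S_Nor → ∀ f : ℕ, Odd f → 7 ∣ f → ∀ P : Ideal ZZ, AbPi P →
  ∀ φ ∈ GK, Fro P 2 φ → ∀ σ : OO → Gal(Om/ℚ), IsSig f σ →
    (∀ x ∈ Lf f, φ x ∈ Lf f) ∧ (∀ τ ∈ GK, ∀ v : OO, τ (toO v) = toO v) ∧
    ∀ β ∈ Lf f, (∀ v, Cop v f → σ v β ∈ Lf f) ∧ (∀ v, Cop v f → σ (pO * v) β = φ (σ v β)) ∧
      (∀ v, Cop v f → σ (-v) β = σ v β) ∧ σ 1 β = β

/-- (60 lines) **FrCo** (from Unr).  The Frobenius congruence on `L`.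
Proof.  `VP.frob` (`DI/Val.lean`): `MP P (φ x - x²)`, and `φ x - x² ∈ L`; `b = (φ x - x²) / wO ∈ L` (`wO ∈ KQ ≤ Lf f`: `S_E8`, or
directly from the definition of `FixH`).  `S_Unr`: `VP P ((φ x - x²) / 2)`, and `b = (1 - wO) (φ x - x²) / 2` as
`wO (1 - wO) = 2`; `VP P (1 - wO)`. -/
def S_FrCo : Prop := S_VS → (∀ f : ℕ, Odd f → 7 ∣ f → ∀ P : Ideal ZZ, Npr P → MP P 2 →
    ∀ x ∈ Lf f, MP P x → VP P (x / 2)) →
  ∀ f : ℕ, Odd f → 7 ∣ f → ∀ P : Ideal ZZ, AbPi P → ∀ φ ∈ GK, Fro P 2 φ → (∀ x ∈ Lf f, φ x ∈ Lf f) →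
    ∀ x ∈ Lf f, VP P x → ∃ b ∈ Lf f, VP P b ∧ φ x = x ^ 2 + wO * b

/-- (120 lines) **Main** (from Nor, VS, HalfO).  The hypothesis of Honda's argument for a series `thS F`.
Proof.  Let `A` be the subring of the `x` with `VP P x`.  `coeff n (cs (map φ u) (X ^ 2))` is `φ (coeff (n/2) u)` for `n` even
and `0` for `n` odd (`coeff_subst_X_pow`, or `PowerSeries.coeff_subst'`, or write `cs g (X^2)` as `mk`; compare `DI/F4/FrSq.lean`).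
`n = 0`: `lev 0 = {0}` and `F 0 = 0` (`F(pO * 0) = wO⁻¹ φ(F 0)` does not give it; it is a hypothesis).  `n ≥ 1`: split `lev n` into
the multiples of `pO` and the rest `R` (`S_Nor`: `v = pO u` or `v = 1 + pO u`).  The map `u ↦ pO u` is a bijection from `lev (n/2)`
to the first part if `n` is even; if `n` is odd the first part is empty (`Nm (pO u) = 2 Nm u`).  So
`coeff n u = wO⁻¹ φ (coeff (n/2) u) [n even] + (∑_(v ∈ R) F v) / 2`, and the last term is in `A` by HalfO (`-R = R`,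
`0 ∉ R`).  So the coefficient of the difference is in `A`. -/
def S_Main : Prop := S_Nor → S_HalfO → ∀ P : Ideal ZZ, AbPi P → ∀ (F : OO → Om) (φ : Gal(Om/ℚ)),
  F 0 = 0 → (∀ v, F (-v) = F v) → (∀ v, F (pO * v) = wO⁻¹ * φ (F v)) →
  (∀ u, VP P (F (1 + pO * u))) →
  ∀ n, VP P (PowerSeries.coeff n (thS F -
    PowerSeries.C wO⁻¹ * DI.F4.cs (PowerSeries.map (φ : Om →+* Om) (thS F)) (PowerSeries.X ^ 2)))

/-- (100 lines) **UMain** (from E1, E3, E9, GalF, Nor, Main).  `u_β` satisfies the hypothesis of Honda's argument.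
Proof.  `F = uF f σ N0 β`.  `F 0 = 0` (`toO 0 = 0`, division by `0`; or `0` is not prime to `f` as `7 ∣ f`).  `F (-v) = F v`: `eps (-v) = -eps v`,
`toO (-v) = -toO v`, `σ (-v) β = σ v β` (GalF), `Cop (-v) f`.  `F (pO v) = wO⁻¹ φ (F v)`: `eps`, `Cop` (Nor), `toO (pO v) = wO toO v`,
GalF (2), `φ` fixes integers and `toO v`.  `VP P (F (1 + pO u))`: `toO (1 + pO u) = 1 + wO toO u` is a unit of `V_P`
(`MP P wO`, `VP P (toO u)`; `UP.congr`, `VP.inv`), `VP P (σ v β)` by hypothesis (`σ v ∈ GK`), integers are in `V_P`.  First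
coefficient: `lev 1 = {1, -1}` (Nor), `F 1 = N0 β = F (-1)`.  Coefficients in `L`: `lev n` is finite, `σ v β ∈ L`, `toO v ∈ L`. -/
def S_UMain : Prop := S_E1 → S_E3 → S_E8 → S_E9 → S_Nor → S_HalfO →
  (S_E1 → S_E3 → S_E9 → S_Nor → ∀ f : ℕ, Odd f → 7 ∣ f → ∀ P : Ideal ZZ, AbPi P →
  ∀ φ ∈ GK, Fro P 2 φ → ∀ σ : OO → Gal(Om/ℚ), IsSig f σ →
    (∀ x ∈ Lf f, φ x ∈ Lf f) ∧ (∀ τ ∈ GK, ∀ v : OO, τ (toO v) = toO v) ∧
    ∀ β ∈ Lf f, (∀ v, Cop v f → σ v β ∈ Lf f) ∧ (∀ v, Cop v f → σ (pO * v) β = φ (σ v β)) ∧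
      (∀ v, Cop v f → σ (-v) β = σ v β) ∧ σ 1 β = β) → S_Main →
  ∀ f : ℕ, Odd f → 7 ∣ f → ∀ P : Ideal ZZ, AbPi P → ∀ φ ∈ GK, Fro P 2 φ →
  ∀ σ : OO → Gal(Om/ℚ), IsSig f σ → ∀ (N0 : ℤ) (β : Om), β ∈ Lf f → (∀ τ ∈ GK, VP P (τ β)) →
    PowerSeries.constantCoeff (uS f σ N0 β) = 0 ∧ PowerSeries.coeff 1 (uS f σ N0 β) = N0 * β ∧
    (∀ n, PowerSeries.coeff n (uS f σ N0 β) ∈ Lf f) ∧
    ∀ n, VP P (PowerSeries.coeff n (uS f σ N0 β - PowerSeries.C wO⁻¹ *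
      DI.F4.cs (PowerSeries.map (φ : Om →+* Om) (uS f σ N0 β)) (PowerSeries.X ^ 2)))

/-- (150 lines) **FH** (from VS, Nor, HalfO, FrK, Unr, GalF, FrCo, Main, UMain and `DI.F4.S_F6`).  The output of F4, F6
and H5 together; the consumer is the assembly of `S_F` (helper79): `TA, WA, TB, WB, ψ` come from F3, `Q1, Q2` from F5.
Proof.  `V` from `S_VS`, `φ` from `S_FrK`.  `L = Lf f` (as a type), `j` the inclusion, `pi = ⟨wO, _⟩` (`wO ∈ Lf f`: GalF (2) with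
`v = pO` and the definition of `FixH`), `Fr` the restriction of `φ` (GalF (1)), `Fr pi = pi` (GalF (2)).  `uA : L⟦X⟧` is
`mk fun n => ⟨coeff n (uS f σ N0 βA), _⟩` (UMain), so `map j uA = uS f σ N0 βA`, and by `DI.F4.map_cs` (for `j`; `j ∘ Fr = φ ∘ j`)
`j (coeff n (uA - C pi⁻¹ * cs (map Fr uA) (X ^ 2)))` is the coefficient of `UMain`.  `coeff 1 uA = N0 βA`: `N0` is odd, `MP P 2`, so
`N0` is a unit of `V_P` (`N0 = 2 k + 1`), and `βA` is a unit (`UP`: `VP P βA` with `τ = 1`, `¬ MP P βA`); `UP.iff` gives the inverse.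
The congruence `Fr a = a² + pi b`: FrCo.  `k' = k ⊔ ℚ(c1) ⊔ ℚ(c2)` is finite over `ℚ` (`c1, c2` are algebraic).  `WEq TA WA` is
`TWrel.curve` (the same formula), `wO / wbO ^ 2 = j (pi / (1 - pi) ^ 2)`, `wbO = 1 - wO`.  Apply `DI.F4.S_F6`. -/
def S_FH : Prop := S_E1 → S_E3 → S_E8 → S_E9 → ∀ (f : ℕ) (P : Ideal ZZ) (σ : OO → Gal(Om/ℚ))
    (N0 : ℤ) (βA βB : Om), Odd f → 7 ∣ f → AbPi P → IsSig f σ → Odd N0 → βA ∈ Lf f → βB ∈ Lf f →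
    (∀ τ ∈ GK, VP P (τ βA)) → (∀ τ ∈ GK, VP P (τ βB)) → ¬ MP P βA → ¬ MP P βB →
  ∀ TA WA TB WB ψ Q1 Q2 : PowerSeries Om,
    F.TWrel (uS f σ N0 βA) TA WA → F.TWrel (uS f σ N0 βB) TB WB → ψ ≠ 0 →
    ψ ^ 2 * WA * WB = PowerSeries.X ^ 4 * (TA - PowerSeries.C (wO / wbO ^ 2) * WA) *
      (PowerSeries.C (wO ^ 2) * TB - PowerSeries.C wbO * WB) →
    Q2 ≠ 0 → Q2 * ψ = Q1 →
    ∀ k : IntermediateField ℚ Om, FiniteDimensional ℚ k →
    (∀ n, PowerSeries.coeff n Q1 ∈ k) → (∀ n, PowerSeries.coeff n Q2 ∈ k) →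
    (∃ c : Om, c ≠ 0 ∧ ∀ n, VP P (c * PowerSeries.coeff n Q1)) →
    (∃ c : Om, c ≠ 0 ∧ ∀ n, VP P (c * PowerSeries.coeff n Q2)) → False

end Pool.Agent.DI.FH
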