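import Pool.Agent.Lib.DI.Iface
import Pool.Agent.Lib.DI.Val
import Pool.Agent.Lib.DI.F.SpecT
import Pool.Agent.Lib.DI.F4.Spec

/-!
# Theorem DI, part FH: application of Honda's argument (H5) to the series `u_A`, `u_B`; definitions
-/

set_option autoImplicit false

open scoped Pointwise

noncomputable section

namespace Pool.Agent.DI.FH

open Pool.Agent.MuZ Pool.Agent.DI

/-! ## Level sets of the norm -/

theorem Nm_nonneg (v : OO) : 0 ≤ Nm v := by
  unfold Nm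
  nlinarith [sq_nonneg (2 * v.re + v.im), sq_nonneg v.im]

theorem im_sq_le (v : OO) : 7 * v.im ^ 2 ≤ 4 * Nm v := by
  unfold Nm
  nlinarith [sq_nonneg (2 * v.re + v.im)]

theorem re_sq_le (v : OO) : 7 * v.re ^ 2 ≤ 8 * Nm v := by
  unfold Nm
  nlinarith [sq_nonneg (v.re + 4 * v.im)]

/-- The embedding of pairs. -/
def pr : ℤ × ℤ ↪ OO where
  toFun p := ⟨p.1, p.2⟩
  inj' := by
    intro p q h
    have h1 := congrArg QuadraticAlgebra.re h
    have h2 := congrArg QuadraticAlgebra.im h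
    exact Prod.ext h1 h2

/-- The elements of norm `n`. -/
def lev (n : ℕ) : Finset OO :=
  ((Finset.Icc (-(n : ℤ)) n ×ˢ Finset.Icc (-(n : ℤ)) n).map pr).filter (fun v => Nm v = n)

theorem mem_lev {n : ℕ} {v : OO} : v ∈ lev n ↔ Nm v = n := by
  unfold lev
  rw [Finset.mem_filter]
  refine ⟨fun h => h.2, fun h => ⟨?_, h⟩⟩
  rw [Finset.mem_map]
  have h1 := im_sq_le v
  have h2 := re_sq_le v
  rw [h] at h1 h2
  have hn : (0 : ℤ) ≤ n := Int.natCast_nonneg n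
  refine ⟨(v.re, v.im), ?_, rfl⟩
  rw [Finset.mem_product, Finset.mem_Icc, Finset.mem_Icc]
  refine ⟨⟨?_, ?_⟩, ?_, ?_⟩ <;> nlinarith

/-- The series `∑ q^(N v) F(v)`, sum over `v` modulo `± 1`. -/
def thS (F : OO → Om) : PowerSeries Om := PowerSeries.mk fun n => (∑ v ∈ lev n, F v) / 2

open Classical in
/-- The coefficients of `u_β`: `N0 ε(v) σ_v(β) / v`. -/
def uF (f : ℕ) (σ : OO → Gal(Om/ℚ)) (N0 : ℤ) (β : Om) (v : OO) : Om :=
  if Cop v f then (N0 : Om) * (eps v : Om) * σ v β / toO v else 0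

/-- The series `u_β = Ω A(z)` in `q`. -/
def uS (f : ℕ) (σ : OO → Gal(Om/ℚ)) (N0 : ℤ) (β : Om) : PowerSeries Om := thS (uF f σ N0 β)

/-- `σ` is a choice of the automorphisms `σ_v`. -/
def IsSig (f : ℕ) (σ : OO → Gal(Om/ℚ)) : Prop :=
  ∀ v, Cop v f → σ v ∈ GK ∧ (Psi (σ v) f v ∨ Psi (σ v) f (-v))

end Pool.Agent.DI.FH
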